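import Pool.Agent.V11324.GL.Par
import Mathlib.Probability.Distributions.Gaussian.Real

/-! Clipping Gaussian variables: the local law for Gaussian disorder. -/

set_option autoImplicit false

open scoped BigOperators
open MeasureTheory ProbabilityTheory Filter

namespace Pool.Agent.V11324.GL

open Pool.Agent.W788.BK
open Pool.Agent.TH794.LL2
open Pool.Agent.H4R2
open Pool.Agent.H4R2.LO (Zd)
open Pool.Agent.W788.BK.Num

/-- clipping and scaling -/
noncomputable def cl (B v : ℝ) : ℝ := max (-1) (min 1 (v / B))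

theorem cl_abs (B v : ℝ) : |cl B v| ≤ 1 := by
  unfold cl
  rw [abs_le]
  exact ⟨le_max_left _ _, max_le (by norm_num) (min_le_left _ _)⟩

theorem cl_eq {B v : ℝ} (hB : 0 < B) (h : |v| ≤ B) : cl B v = v / B := by
  have h1 : |v / B| ≤ 1 := by
    rw [abs_div, abs_of_pos hB, div_le_one hB]
    exact h
  rw [abs_le] at h1
  unfold cl
  rw [min_eq_right h1.2, max_eq_right h1.1]

theorem cl_neg (B v : ℝ) : cl B (-v) = -cl B v := by
  unfold cl
  rw [neg_div]
  rcases le_total (v / B) (-1) with h | h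
  · rw [min_eq_left (by linarith : (1 : ℝ) ≤ -(v / B)), max_eq_right (by norm_num : (-1 : ℝ) ≤ 1),
      min_eq_right (by linarith : v / B ≤ 1), max_eq_left h]
    norm_num
  · rcases le_total (v / B) 1 with h' | h'
    · rw [min_eq_right (by linarith : -(v / B) ≤ 1), max_eq_right (by linarith : -1 ≤ -(v / B)),
        min_eq_right h', max_eq_right h]
    · rw [min_eq_right (by linarith : -(v / B) ≤ 1), max_eq_left (by linarith : -(v / B) ≤ -1),
        min_eq_left h', max_eq_right (by norm_num : (-1 : ℝ) ≤ 1)]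

theorem cl_meas (B : ℝ) : Measurable (cl B) := by
  unfold cl
  fun_prop

/-- the clipped law -/
noncomputable def nu (B : ℝ) : Measure ℝ := (gaussianReal 0 1).map (cl B)

theorem nu_prob (B : ℝ) : IsProbabilityMeasure (nu B) :=
  Measure.isProbabilityMeasure_map (cl_meas B).aemeasurable

theorem nu_bd (B : ℝ) : ∀ᵐ s ∂(nu B), |s| ≤ 1 := by
  unfold nu
  rw [ae_map_iff (cl_meas B).aemeasurable (measurableSet_le (by fun_prop) (by fun_prop))]
  exact Eventually.of_forall fun s => cl_abs B s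

theorem nu_mean (B : ℝ) : ∫ s, s ∂(nu B) = 0 := by
  unfold nu
  rw [integral_map (cl_meas B).aemeasurable (by fun_prop)]
  have h1 : ∫ s, cl B s ∂((gaussianReal 0 1).map fun s => -s) =
      ∫ s, cl B (-s) ∂(gaussianReal 0 1) :=
    integral_map (by fun_prop) (cl_meas B).aestronglyMeasurable
  rw [gaussianReal_map_neg, neg_zero] at h1
  have h2 : ∫ s, cl B (-s) ∂(gaussianReal 0 1) = -∫ s, cl B s ∂(gaussianReal 0 1) := by
    rw [← integral_neg]
    exact integral_congr_ae (Eventually.of_forall fun s => cl_neg B s)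
  linarith

theorem mgf_one (t : ℝ) : mgf (fun v : ℝ => v) (gaussianReal 0 1) t = Real.exp (t ^ 2 / 2) := by
  rw [mgf_gaussianReal (μ := 0) (v := 1) (by simp)]
  simp

theorem tail (R : ℝ) (hR : 0 ≤ R) :
    (gaussianReal 0 1).real {v | R < |v|} ≤ 2 * Real.exp (-(R ^ 2 / 2)) := by
  have h1 := measure_ge_le_exp_mul_mgf (μ := gaussianReal 0 1) (X := fun v : ℝ => v) (t := R) R hR
    (integrable_exp_mul_gaussianReal R)
  have h2 := measure_le_le_exp_mul_mgf (μ := gaussianReal 0 1) (X := fun v : ℝ => v) (t := -R) (-R)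
    (by linarith) (integrable_exp_mul_gaussianReal (-R))
  rw [mgf_one, ← Real.exp_add] at h1 h2
  have e1 : -R * R + R ^ 2 / 2 = -(R ^ 2 / 2) := by ring
  have e2 : - -R * -R + (-R) ^ 2 / 2 = -(R ^ 2 / 2) := by ring
  rw [e1] at h1
  rw [e2] at h2
  have hsub : {v : ℝ | R < |v|} ⊆ {v : ℝ | R ≤ v} ∪ {v : ℝ | v ≤ -R} := by
    intro v hv
    simp only [Set.mem_ofPred_eq] at hv
    rcases lt_abs.1 hv with h | h
    · exact Or.inl h.le
    · exact Or.inr (by simp only [Set.mem_ofPred_eq]; linarith)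
  calc (gaussianReal 0 1).real {v | R < |v|} ≤ _ := measureReal_mono hsub
    _ ≤ _ := measureReal_union_le _ _
    _ ≤ _ := by linarith

variable {d : ℕ}

/-- the numbers -/
theorem num (d : ℕ) : ∀ᶠ y : ℝ in atTop,
    Real.exp (-Real.exp (y / 100)) +
      (3 * (Real.exp (Real.exp (y / 100)) + Real.exp (7 * y))) ^ d *
        (2 * Real.exp (-(Real.exp (y / 149) ^ 2 / 2))) ≤
      Real.exp (-Real.exp (150 / 15049 * y)) := by
  filter_upwards [ev1 7 (1 / 100) 1 (by norm_num), ev4 (2 * ((d : ℝ) + 1) * (1 + Real.log 12)) 1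
    (2 / 149) one_pos (by norm_num), ev3 1 (150 / 15049) (1 / 100) (by norm_num),
    ev3 (Real.log 2 + 1) 0 (1 / 20000) (by norm_num),
    ev3 2 (150 / 15049) (1 / 100) (by norm_num), eventually_ge_atTop 1] with y h1 h2 h3 h4 h5 hy1
  obtain ⟨Y, hY⟩ : ∃ Y, Y = Real.exp (y / 100) := ⟨_, rfl⟩
  have e0 : (1 / 100 * y : ℝ) = y / 100 := by ring
  rw [e0] at h1 h3 h5
  rw [pow_one] at h1
  rw [← hY] at h1 h2 h3 h5 ⊢
  have hY1 : 1 ≤ Y := by
    rw [hY]
    exact Real.one_le_exp (by linarith)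
  have e1 : Real.exp (y / 149) ^ 2 = Real.exp (2 / 149 * y) := by
    rw [← Real.exp_nat_mul]
    congr 1
    push_cast
    ring
  rw [e1]
  have hlog12 : 0 ≤ Real.log 12 := Real.log_nonneg (by norm_num)
  have hd0 : (0 : ℝ) ≤ d := Nat.cast_nonneg d
  have a1 : 3 * (Real.exp Y + Real.exp (7 * y)) ≤ 12 * Real.exp Y := by
    have : Real.exp (7 * y) ≤ Real.exp Y := Real.exp_le_exp.2 h1
    have := Real.exp_pos Y
    linarith
  have a2 : (3 * (Real.exp Y + Real.exp (7 * y))) ^ d ≤ Real.exp (d * (Real.log 12 + Y)) := by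
    have h6 : Real.exp (d * (Real.log 12 + Y)) = (12 * Real.exp Y) ^ d := by
      rw [Real.exp_nat_mul, Real.exp_add, Real.exp_log (by norm_num)]
    rw [h6]
    exact pow_le_pow_left₀ (by positivity) a1 d
  have a3 : d * (Real.log 12 + Y) + Real.log 2 + Y ≤ Real.exp (2 / 149 * y) / 2 := by
    have h7 : Real.log 2 ≤ Real.log 12 := Real.log_le_log (by norm_num) (by norm_num)
    have h8 : 2 * ((d : ℝ) + 1) * (1 + Real.log 12) * Y ≤
        2 * ((d : ℝ) + 1) * (1 + Real.log 12) * (Y + y + 1) := by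
      apply mul_le_mul_of_nonneg_left _ (by positivity)
      linarith
    have h9 : (d * (Real.log 12 + Y) + Real.log 2 + Y) ≤ ((d : ℝ) + 1) * (1 + Real.log 12) * Y := by
      have b1 : Real.log 12 ≤ Real.log 12 * Y := le_mul_of_one_le_right hlog12 hY1
      have b2 : (d : ℝ) * Real.log 12 ≤ d * (Real.log 12 * Y) := mul_le_mul_of_nonneg_left b1 hd0
      nlinarith
    linarith
  have a4 : (3 * (Real.exp Y + Real.exp (7 * y))) ^ d *
      (2 * Real.exp (-(Real.exp (2 / 149 * y) / 2))) ≤ Real.exp (-Y) := by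
    calc (3 * (Real.exp Y + Real.exp (7 * y))) ^ d *
        (2 * Real.exp (-(Real.exp (2 / 149 * y) / 2))) ≤
        Real.exp (d * (Real.log 12 + Y)) *
          (Real.exp (Real.log 2) * Real.exp (-(Real.exp (2 / 149 * y) / 2))) := by
          rw [Real.exp_log (by norm_num)]
          gcongr
      _ = Real.exp (d * (Real.log 12 + Y) + (Real.log 2 + -(Real.exp (2 / 149 * y) / 2))) := by
          rw [← Real.exp_add, ← Real.exp_add]
      _ ≤ Real.exp (-Y) := by
          apply Real.exp_le_exp.2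
          linarith
  have a5 : Real.exp (-Y) + Real.exp (-Y) ≤ Real.exp (-Real.exp (150 / 15049 * y)) := by
    have h10 : Real.exp (-Y) + Real.exp (-Y) = Real.exp (Real.log 2 + -Y) := by
      rw [Real.exp_add, Real.exp_log (by norm_num)]
      ring
    rw [h10]
    apply Real.exp_le_exp.2
    have h11 : 1 ≤ Real.exp (150 / 15049 * y) := Real.one_le_exp (by positivity)
    have h12 : Real.log 2 ≤ 1 := by
      have := Real.log_two_lt_d9
      linarith
    linarith
  linarith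

/-- **the local law for clipped Gaussian variables** -/
theorem gauss (hES : S_ES) (hTH : S_THIRD) (hFL : S_FLUCT) (hIN : S_INV) (hO : S_OSC)
    (hSU : S_SUP) (hQB : S_QB) (hLO : S_LOW) (hAD : S_ADM)
    (d : ℕ) (hd : 3 ≤ d) : ∃ y0 : ℝ, ∀ y : ℝ, y0 ≤ y →
    ∃ (Gf : ℝ → ℝ) (G : Set (Zd d → ℝ)), MeasurableSet G ∧
      1 - Real.exp (-Real.exp (150 / 15049 * y)) ≤
        (Measure.infinitePi fun _ : Zd d => gaussianReal 0 1).real G ∧
      (∀ E, |Gf E| ≤ KK d) ∧
      (∀ E E', |Gf E - Gf E'| ≤ KK d * |E - E'| ^ (1 / 4 : ℝ) + Real.exp (-(11 / 1000) * y)) ∧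
      (∀ ξ ∈ G, LLaw d (Real.exp (-1 * y)) (Real.exp (Real.exp (y / 100)))
        (Real.exp (-(211 / 100) * y)) (Real.exp (-(11 / 1000) * y)) Gf
        (fun x => ξ x / Real.exp (y / 149))) ∧
      (∀ (σ : ℝ) (ξ : Zd d → ℝ) (a : Zd d) (E : ℝ) (ur ui : Zd d → ℝ), (∀ x, σ * ξ x = 0) →
        LG d σ ξ a E (Real.exp (-(211 / 100) * y)) ur ui →
        |ui a - Gf E| ≤ Real.exp (-(11 / 1000) * y)) := by
  obtain ⟨y0, h0⟩ := engineC hES hTH hFL hIN hO hSU hQB hLO hAD d hd 1 one_pos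
  obtain ⟨y1, hy1⟩ := eventually_atTop.1 (num d)
  refine ⟨max y0 y1, fun y hy => ?_⟩
  have hn := hy1 y (le_trans (le_max_right _ _) hy)
  obtain ⟨B, hB⟩ : ∃ B, B = Real.exp (y / 149) := ⟨_, rfl⟩
  have hB0 : 0 < B := by rw [hB]; positivity
  obtain ⟨Gf, G, hG, hP, hcyl, hG1, hG2, hLL, hF⟩ := h0 y (le_trans (le_max_left _ _) hy) (nu B)
    (nu_prob B) (nu_bd B) (nu_mean B)
  obtain ⟨ρ, hρ⟩ : ∃ ρ, ρ = Real.exp (Real.exp (y / 100)) + Real.exp (7 * y) := ⟨_, rfl⟩
  have hρ1 : 1 ≤ ρ := by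
    have h1 : 1 ≤ Real.exp (Real.exp (y / 100)) := Real.one_le_exp (Real.exp_pos _).le
    have h2 := Real.exp_pos (7 * y)
    linarith
  rw [← hρ, ← hB] at hn
  rw [← hρ] at hcyl
  -- the event
  obtain ⟨A, hA⟩ : ∃ A : Set (Zd d → ℝ), A = ⋂ x ∈ LO.bx (0 : Zd d) ⌊ρ⌋₊,
    {ξ : Zd d → ℝ | |ξ x| ≤ B} := ⟨_, rfl⟩
  have hAm : MeasurableSet A := by
    rw [hA]
    exact Finset.measurableSet_biInter _ fun x _ => measurableSet_le (by fun_prop) (by fun_prop)
  have hPA : (Measure.infinitePi fun _ : Zd d => gaussianReal 0 1).real Aᶜ ≤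
      (3 * ρ) ^ d * (2 * Real.exp (-(B ^ 2 / 2))) := by
    have e1 : Aᶜ = ⋃ x ∈ LO.bx (0 : Zd d) ⌊ρ⌋₊, {ξ : Zd d → ℝ | B < |ξ x|} := by
      rw [hA]
      ext ξ
      simp
    rw [e1]
    have h1 : ∀ x ∈ LO.bx (0 : Zd d) ⌊ρ⌋₊,
        (Measure.infinitePi fun _ : Zd d => gaussianReal 0 1).real {ξ : Zd d → ℝ | B < |ξ x|} ≤
          2 * Real.exp (-(B ^ 2 / 2)) := by
      intro x _
      have h2 : (Measure.infinitePi fun _ : Zd d => gaussianReal 0 1).map (fun ξ => ξ x) =
          gaussianReal 0 1 := Measure.infinitePi_map_eval _ x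
      have hm : MeasurableSet {v : ℝ | B < |v|} := measurableSet_lt (by fun_prop) (by fun_prop)
      have h3 := tail B hB0.le
      rw [← h2, map_measureReal_apply (measurable_pi_apply x) hm] at h3
      exact h3
    refine (measureReal_biUnion_finset_le _ _).trans ((Finset.sum_le_sum h1).trans ?_)
    rw [Finset.sum_const, nsmul_eq_mul, LO.Em.card_bx]
    apply mul_le_mul_of_nonneg_right _ (by positivity)
    push_cast
    apply pow_le_pow_left₀ (by positivity)
    have := Nat.floor_le (show 0 ≤ ρ by linarith)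
    linarith
  -- the map
  have hTm : Measurable (fun (ω : Zd d → ℝ) x => cl B (ω x)) :=
    measurable_pi_iff.2 fun x => (cl_meas B).comp (measurable_pi_apply x)
  have hlaw : (Measure.infinitePi fun _ : Zd d => gaussianReal 0 1).map
      (fun (ω : Zd d → ℝ) x => cl B (ω x)) = Measure.infinitePi fun _ : Zd d => nu B :=
    Measure.infinitePi_map_pi (μ := fun _ : Zd d => gaussianReal 0 1)
      (f := fun _ (s : ℝ) => cl B s) (fun _ => cl_meas B)
  obtain ⟨G', hG'⟩ : ∃ G' : Set (Zd d → ℝ), G' = (fun (ω : Zd d → ℝ) x => cl B (ω x)) ⁻¹' G :=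
    ⟨_, rfl⟩
  have hG'm : MeasurableSet G' := by
    rw [hG']
    exact hTm hG
  have hPG : 1 - Real.exp (-Real.exp (y / 100)) ≤
      (Measure.infinitePi fun _ : Zd d => gaussianReal 0 1).real G' := by
    rw [← hlaw, map_measureReal_apply hTm hG, ← hG'] at hP
    exact hP
  refine ⟨Gf, G' ∩ A, hG'm.inter hAm, ?_, hG1, hG2, ?_, hF⟩
  · have h2 := probReal_add_probReal_compl
      (μ := Measure.infinitePi fun _ : Zd d => gaussianReal 0 1) (hG'm.inter hAm)
    have h3 := probReal_add_probReal_compl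
      (μ := Measure.infinitePi fun _ : Zd d => gaussianReal 0 1) hG'm
    have h4 : (Measure.infinitePi fun _ : Zd d => gaussianReal 0 1).real (G' ∩ A)ᶜ ≤
        (Measure.infinitePi fun _ : Zd d => gaussianReal 0 1).real G'ᶜ +
        (Measure.infinitePi fun _ : Zd d => gaussianReal 0 1).real Aᶜ := by
      rw [Set.compl_inter]
      exact measureReal_union_le _ _
    linarith
  · intro ξ hξ
    have hξ1 : (fun x => cl B (ξ x)) ∈ G := by
      have := hξ.1
      rw [hG'] at this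
      exact this
    have hξ2 : ∀ x, ‖x‖ ≤ ρ → |ξ x| ≤ B := by
      intro x hx
      have h1 := hξ.2
      rw [hA] at h1
      exact Set.mem_iInter₂.1 h1 x (Pool.Agent.W788.Gen3.norm_zd x ρ hx)
    have hξ3 : (fun x => ξ x / B) ∈ G :=
      hcyl (fun x => cl B (ξ x)) (fun x => ξ x / B) (fun x hx => cl_eq hB0 (hξ2 x hx)) hξ1
    have h5 := hLL _ hξ3
    rw [← hB]
    exact h5

end Pool.Agent.V11324.GL
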