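import Pool.Agent.TH794.QE.FinA

/-! The Green function of a diagonal potential without bounds, and eigenfunctions. -/

set_option autoImplicit false

open scoped BigOperators Topology
open MeasureTheory Filter

namespace Pool.Agent.V11324.GL

open Pool.Agent.W788.LD.Spec (S)
open Pool.Agent.W788
open Pool.Agent.H4R2
open Pool.Agent.H4R2.LO (Zd)
open Pool.Agent.TH794.LL2 Pool.Agent.TH794.QE

variable {d : ℕ}

/-- a solution of the resolvent equation as a Green function -/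
theorem lg_of_rs (V ξ : Zd d → ℝ) (σ : ℝ) (hV : ∀ x, V x = -(σ * ξ x)) (a : Zd d) (e t : ℝ)
    (u : Zd d → ℂ) (h : Rs d V a e t u) :
    LG d σ ξ a (-e) t (fun x => -(u x).re) (fun x => (u x).im) := by
  have hu := h.sq
  have heq := h.eq
  have hn : ∀ x, ‖u x‖ ^ 2 = (u x).re ^ 2 + (u x).im ^ 2 := by
    intro x
    rw [← Complex.normSq_eq_norm_sq, Complex.normSq_apply]
    ring
  refine ⟨?_, ?_, ?_, ?_⟩
  · refine Summable.of_nonneg_of_le (fun x => sq_nonneg _) (fun x => ?_) hu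
    rw [hn x]
    nlinarith [sq_nonneg (u x).im]
  · refine Summable.of_nonneg_of_le (fun x => sq_nonneg _) (fun x => ?_) hu
    rw [hn x]
    nlinarith [sq_nonneg (u x).re]
  · intro x
    have h3 := congrArg Complex.re (heq x)
    rw [hV x] at h3
    have h4 : (if x = a then (1 : ℂ) else 0).re = if x = a then 1 else 0 := by
      split_ifs <;> simp
    rw [h4] at h3
    have h5 : ∑ i : Fin d, (-(u (x + Pi.single i 1)).re + -(u (x - Pi.single i 1)).re) =
        -∑ i : Fin d, ((u (x + Pi.single i 1)).re + (u (x - Pi.single i 1)).re) := by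
      rw [← Finset.sum_neg_distrib]
      exact Finset.sum_congr rfl fun i _ => by ring
    rw [h5]
    simp [S] at h3
    linarith
  · intro x
    have h3 := congrArg Complex.im (heq x)
    rw [hV x] at h3
    have h4 : (if x = a then (1 : ℂ) else 0).im = 0 := by
      split_ifs <;> simp
    rw [h4] at h3
    simp [S] at h3
    linarith

/-- truncated potentials -/
theorem lg_cut (σ : ℝ) (ξ : Zd d → ℝ) (a : Zd d) (E t : ℝ) (ht : 0 < t) (n : ℕ) :
    ∃ ur ui : Zd d → ℝ, LG d σ (fun x => if ‖x‖ ≤ n then ξ x else 0) a E t ur ui := by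
  obtain ⟨B, hB⟩ : ∃ B : ℝ, B = ∑ x ∈ LO.bx (0 : Zd d) ⌊(n : ℝ)⌋₊, |σ * ξ x| := ⟨_, rfl⟩
  have hB0 : 0 ≤ B := by
    rw [hB]
    exact Finset.sum_nonneg fun x _ => abs_nonneg _
  have hV : ∀ x : Zd d, |-(σ * (if ‖x‖ ≤ n then ξ x else 0))| ≤ B := by
    intro x
    by_cases hx : ‖x‖ ≤ n
    · rw [if_pos hx, abs_neg, hB]
      exact Finset.single_le_sum (f := fun x => |σ * ξ x|) (fun y _ => abs_nonneg _)
        (Gen3.norm_zd x n hx)
    · rw [if_neg hx]
      simpa using hB0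
  obtain ⟨u, hu⟩ := rs_exists (fun x => -(σ * (if ‖x‖ ≤ n then ξ x else 0))) B hV a (-E) t ht
  have h1 := lg_of_rs (fun x => -(σ * (if ‖x‖ ≤ n then ξ x else 0)))
    (fun x => if ‖x‖ ≤ n then ξ x else 0) σ (fun x => rfl) a (-E) t u hu
  rw [neg_neg] at h1
  exact ⟨_, _, h1⟩

/-- bounds for the Green function -/
theorem lg_bd {σ : ℝ} {ξ : Zd d → ℝ} {a : Zd d} {E t : ℝ} {ur ui : Zd d → ℝ}
    (h : LG d σ ξ a E t ur ui) (ht : 0 < t) (F : Finset (Zd d)) :
    ∑ x ∈ F, ur x ^ 2 ≤ (t⁻¹) ^ 2 ∧ ∑ x ∈ F, ui x ^ 2 ≤ (t⁻¹) ^ 2 := by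
  have h1 := h.norm ht
  have h2 : 0 ≤ ∑' x, ur x ^ 2 := tsum_nonneg fun x => sq_nonneg _
  have h3 : 0 ≤ ∑' x, ui x ^ 2 := tsum_nonneg fun x => sq_nonneg _
  have h4 := h.sr.sum_le_tsum F fun x _ => sq_nonneg _
  have h5 := h.si.sum_le_tsum F fun x _ => sq_nonneg _
  constructor <;> linarith

/-- **existence of the Green function for every potential** -/
theorem lg_exists (σ : ℝ) (ξ : Zd d → ℝ) (a : Zd d) (E t : ℝ) (ht : 0 < t) :
    ∃ ur ui : Zd d → ℝ, LG d σ ξ a E t ur ui := by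
  choose ur ui h using lg_cut σ ξ a E t ht
  have hti : 0 ≤ t⁻¹ := (inv_pos.2 ht).le
  have hb1 : ∀ n x, ur n x ∈ Set.Icc (-t⁻¹) t⁻¹ := by
    intro n x
    have h1 := (lg_bd (h n) ht {x}).1
    rw [Finset.sum_singleton] at h1
    exact abs_le.1 (abs_le_of_sq_le_sq h1 hti)
  have hb2 : ∀ n x, ui n x ∈ Set.Icc (-t⁻¹) t⁻¹ := by
    intro n x
    have h1 := (lg_bd (h n) ht {x}).2
    rw [Finset.sum_singleton] at h1
    exact abs_le.1 (abs_le_of_sq_le_sq h1 hti)
  obtain ⟨U, hU⟩ : ∃ U : Ultrafilter ℕ, U = hyperfilter ℕ := ⟨_, rfl⟩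
  have hUl : (U : Filter ℕ) ≤ atTop := by
    rw [hU]
    exact Nat.hyperfilter_le_atTop
  have hlim : ∀ f : ℕ → ℝ, (∀ n, f n ∈ Set.Icc (-t⁻¹) t⁻¹) →
      ∃ l, Tendsto f (U : Filter ℕ) (𝓝 l) := by
    intro f hf
    obtain ⟨l, -, hl⟩ := (isCompact_Icc (a := -t⁻¹) (b := t⁻¹)).ultrafilter_le_nhds
      (Ultrafilter.map f U) (by
        rw [Filter.le_principal_iff, Ultrafilter.mem_coe, Ultrafilter.mem_map]
        exact Filter.univ_mem' hf)
    exact ⟨l, hl⟩
  have h1 : ∀ x, ∃ l, Tendsto (fun n => ur n x) (U : Filter ℕ) (𝓝 l) := fun x =>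
    hlim _ fun n => hb1 n x
  have h2 : ∀ x, ∃ l, Tendsto (fun n => ui n x) (U : Filter ℕ) (𝓝 l) := fun x =>
    hlim _ fun n => hb2 n x
  choose vr hvr using h1
  choose vi hvi using h2
  refine ⟨vr, vi, ?_, ?_, ?_, ?_⟩
  · refine summable_of_sum_le (c := (t⁻¹) ^ 2) (fun x => sq_nonneg _) fun F => ?_
    refine le_of_tendsto' (tendsto_finsetSum F fun x _ => (hvr x).pow 2) fun n => ?_
    exact (lg_bd (h n) ht F).1
  · refine summable_of_sum_le (c := (t⁻¹) ^ 2) (fun x => sq_nonneg _) fun F => ?_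
    refine le_of_tendsto' (tendsto_finsetSum F fun x _ => (hvi x).pow 2) fun n => ?_
    exact (lg_bd (h n) ht F).2
  · intro x
    have hev : ∀ᶠ n : ℕ in (U : Filter ℕ), ‖x‖ ≤ n := by
      refine hUl ?_
      obtain ⟨N, hN⟩ := exists_nat_ge ‖x‖
      filter_upwards [eventually_ge_atTop N] with n hn
      exact hN.trans (by exact_mod_cast hn)
    have l1 : Tendsto (fun n => ∑ i, (ur n (x + Pi.single i 1) + ur n (x - Pi.single i 1)) +
        σ * ξ x * ur n x) (U : Filter ℕ) (𝓝 (∑ i, (vr (x + Pi.single i 1) +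
        vr (x - Pi.single i 1)) + σ * ξ x * vr x)) :=
      (tendsto_finsetSum _ fun i _ => (hvr _).add (hvr _)).add ((hvr x).const_mul _)
    have l2 : Tendsto (fun n => E * ur n x + ((if x = a then 1 else 0) - t * ui n x))
        (U : Filter ℕ) (𝓝 (E * vr x + ((if x = a then 1 else 0) - t * vi x))) :=
      ((hvr x).const_mul _).add ((tendsto_const_nhds).sub ((hvi x).const_mul _))
    refine tendsto_nhds_unique l1 (l2.congr' ?_)
    filter_upwards [hev] with n hn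
    have h3 := (h n).er x
    rw [if_pos hn] at h3
    exact h3.symm
  · intro x
    have hev : ∀ᶠ n : ℕ in (U : Filter ℕ), ‖x‖ ≤ n := by
      refine hUl ?_
      obtain ⟨N, hN⟩ := exists_nat_ge ‖x‖
      filter_upwards [eventually_ge_atTop N] with n hn
      exact hN.trans (by exact_mod_cast hn)
    have l1 : Tendsto (fun n => ∑ i, (ui n (x + Pi.single i 1) + ui n (x - Pi.single i 1)) +
        σ * ξ x * ui n x) (U : Filter ℕ) (𝓝 (∑ i, (vi (x + Pi.single i 1) +
        vi (x - Pi.single i 1)) + σ * ξ x * vi x)) :=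
      (tendsto_finsetSum _ fun i _ => (hvi _).add (hvi _)).add ((hvi x).const_mul _)
    have l2 : Tendsto (fun n => E * ui n x + t * ur n x)
        (U : Filter ℕ) (𝓝 (E * vi x + t * vr x)) :=
      ((hvi x).const_mul _).add ((hvr x).const_mul _)
    refine tendsto_nhds_unique l1 (l2.congr' ?_)
    filter_upwards [hev] with n hn
    have h3 := (h n).ei x
    rw [if_pos hn] at h3
    exact h3.symm

/-- Cauchy-Schwarz -/
theorem cs_tsum (f g : Zd d → ℝ) (hf0 : ∀ x, 0 ≤ f x) (hg0 : ∀ x, 0 ≤ g x)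
    (hf : Summable fun x => f x ^ 2) (hg : Summable fun x => g x ^ 2) :
    (Summable fun x => f x * g x) ∧
    ∑' x, f x * g x ≤ Real.sqrt ((∑' x, f x ^ 2) * ∑' x, g x ^ 2) := by
  have h1 : ∀ F : Finset (Zd d), ∑ x ∈ F, f x * g x ≤
      Real.sqrt ((∑' x, f x ^ 2) * ∑' x, g x ^ 2) := by
    intro F
    apply Real.le_sqrt_of_sq_le
    refine (Finset.sum_mul_sq_le_sq_mul_sq F f g).trans ?_
    exact mul_le_mul (hf.sum_le_tsum F fun x _ => sq_nonneg _)
      (hg.sum_le_tsum F fun x _ => sq_nonneg _) (Finset.sum_nonneg fun x _ => sq_nonneg _)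
      (tsum_nonneg fun x => sq_nonneg _)
  exact ⟨summable_of_sum_le (fun x => mul_nonneg (hf0 x) (hg0 x)) h1,
    Real.tsum_le_of_sum_le (fun x => mul_nonneg (hf0 x) (hg0 x)) h1⟩

/-- **eigenfunctions and the Green function** -/
theorem eig_bound {σ : ℝ} {ξ : Zd d → ℝ} {a : Zd d} {E t : ℝ} {ur ui : Zd d → ℝ}
    (h : LG d σ ξ a E t ur ui) (ht : 0 < t) (u : Zd d → ℂ) (hu : Summable fun x => ‖u x‖ ^ 2)
    (he : ∀ x, S u x + ((σ * ξ x : ℝ) : ℂ) * u x = (E : ℂ) * u x) :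
    ‖u a‖ ^ 2 ≤ t * ui a * ∑' x, ‖u x‖ ^ 2 := by
  obtain ⟨g, hg⟩ : ∃ g : Zd d → ℂ, g = fun x => (ur x : ℂ) + (ui x : ℂ) * Complex.I := ⟨_, rfl⟩
  have hgn : ∀ x, ‖g x‖ ^ 2 = ur x ^ 2 + ui x ^ 2 := by
    intro x
    rw [hg, ← Complex.normSq_eq_norm_sq, Complex.normSq_apply]
    simp
    ring
  have hgs : Summable fun x => ‖g x‖ ^ 2 := by
    refine (h.sr.add h.si).congr fun x => ?_
    rw [hgn]
  have hgt : ∑' x, ‖g x‖ ^ 2 = ∑' x, ur x ^ 2 + ∑' x, ui x ^ 2 := by
    rw [← h.sr.tsum_add h.si]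
    exact tsum_congr hgn
  have hgS : ∀ x, S g x + ((σ * ξ x : ℝ) : ℂ) * g x =
      ((E : ℂ) + (t : ℂ) * Complex.I) * g x + if x = a then 1 else 0 := by
    intro x
    have a1 := h.er x
    have a2 := h.ei x
    have e1 : S g x = ((∑ i, (ur (x + Pi.single i 1) + ur (x - Pi.single i 1)) : ℝ) : ℂ) +
        ((∑ i, (ui (x + Pi.single i 1) + ui (x - Pi.single i 1)) : ℝ) : ℂ) * Complex.I := by
      unfold Pool.Agent.W788.LD.Spec.S
      push_cast
      rw [Finset.sum_mul, ← Finset.sum_add_distrib]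
      refine Finset.sum_congr rfl fun i _ => ?_
      rw [hg]
      ring
    have a1' : ((∑ i, (ur (x + Pi.single i 1) + ur (x - Pi.single i 1)) : ℝ) : ℂ) =
        ((E * ur x + ((if x = a then 1 else 0) - t * ui x) - σ * ξ x * ur x : ℝ) : ℂ) := by
      rw [← a1]
      push_cast
      ring
    have a2' : ((∑ i, (ui (x + Pi.single i 1) + ui (x - Pi.single i 1)) : ℝ) : ℂ) =
        ((E * ui x + t * ur x - σ * ξ x * ui x : ℝ) : ℂ) := by
      rw [← a2]
      push_cast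
      ring
    have e2 : ((if x = a then (1 : ℝ) else 0 : ℝ) : ℂ) = if x = a then (1 : ℂ) else 0 := by
      split_ifs <;> simp
    rw [e1, a1', a2', hg, ← e2]
    push_cast
    have hI := Complex.I_sq
    linear_combination (-(t : ℂ) * ui x) * hI
  obtain ⟨s1, s2, e1⟩ := Pool.Agent.W788.LD.Spec.symm u g hu hgs
  have e2 : ∀ x, (starRingEnd ℂ) (u x) * S g x - (starRingEnd ℂ) (S u x) * g x =
      Complex.I * (t : ℂ) * ((starRingEnd ℂ) (u x) * g x) +
        if x = a then (starRingEnd ℂ) (u x) else 0 := by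
    intro x
    have b1 : S g x = ((E : ℂ) + (t : ℂ) * Complex.I) * g x + (if x = a then 1 else 0) -
        ((σ * ξ x : ℝ) : ℂ) * g x := by rw [← hgS x]; ring
    have b2 : S u x = (E : ℂ) * u x - ((σ * ξ x : ℝ) : ℂ) * u x := by rw [← he x]; ring
    rw [b1, b2, map_sub, map_mul, map_mul, Complex.conj_ofReal, Complex.conj_ofReal]
    split_ifs <;> ring
  have hcg := cs_tsum (fun x => ‖u x‖) (fun x => ‖g x‖) (fun x => norm_nonneg _)
    (fun x => norm_nonneg _) hu hgs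
  have hug : Summable fun x => (starRingEnd ℂ) (u x) * g x := by
    refine Summable.of_norm (hcg.1.congr fun x => ?_)
    rw [norm_mul, RCLike.norm_conj]
  have hds : Summable fun x => if x = a then (starRingEnd ℂ) (u x) else 0 :=
    summable_of_hasFiniteSupport ((Set.finite_singleton a).subset fun x hx => by
      by_contra hne
      exact hx (if_neg hne))
  have e3 : ∑' x, ((starRingEnd ℂ) (u x) * S g x - (starRingEnd ℂ) (S u x) * g x) = 0 := by
    rw [s1.tsum_sub s2, e1, sub_self]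
  rw [tsum_congr (L := .unconditional _) e2, (hug.mul_left _).tsum_add hds, tsum_mul_left] at e3
  have e4 : ∑' x, (if x = a then (starRingEnd ℂ) (u x) else 0) = (starRingEnd ℂ) (u a) := by
    rw [tsum_eq_single a]
    · rw [if_pos rfl]
    · intro b hb
      rw [if_neg hb]
  rw [e4] at e3
  have e5 : (starRingEnd ℂ) (u a) = -(Complex.I * (t : ℂ) * ∑' x, (starRingEnd ℂ) (u x) * g x) := by
    linear_combination e3
  have e6 : ‖u a‖ ≤ t * Real.sqrt ((∑' x, ‖u x‖ ^ 2) * ∑' x, ‖g x‖ ^ 2) := by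
    have h1 : ‖u a‖ = ‖(starRingEnd ℂ) (u a)‖ := by rw [RCLike.norm_conj]
    rw [h1, e5, norm_neg, norm_mul, norm_mul, Complex.norm_I, one_mul, Complex.norm_real,
      Real.norm_eq_abs, abs_of_pos ht]
    refine mul_le_mul_of_nonneg_left ?_ ht.le
    refine (norm_tsum_le_tsum_norm ?_).trans ?_
    · refine hcg.1.congr fun x => ?_
      rw [norm_mul, RCLike.norm_conj]
    · refine le_trans (le_of_eq (tsum_congr fun x => ?_)) hcg.2
      rw [norm_mul, RCLike.norm_conj]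
  have hA : 0 ≤ ∑' x, ‖u x‖ ^ 2 := tsum_nonneg fun x => sq_nonneg _
  have hB : 0 ≤ ∑' x, ‖g x‖ ^ 2 := tsum_nonneg fun x => sq_nonneg _
  have h2 := pow_le_pow_left₀ (norm_nonneg _) e6 2
  rw [mul_pow, Real.sq_sqrt (mul_nonneg hA hB)] at h2
  have h3 := h.ward
  rw [← hgt] at h3
  refine h2.trans (le_of_eq ?_)
  rw [← h3]
  ring

end Pool.Agent.V11324.GL
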